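import Pool.Agent.H244.RC.Fin
import Pool.Graph.R_pool_sql_team_seeded_1e53cb71.Results.MP_6acca1_an.GenericGrowth

set_option autoImplicit false

/-!
# Mechanical systems on flat two-dimensional tori: orbits tending to infinity are exceptional for
every potential, and for generic potentials the speed of a set of orbits of positive measure
oscillates with an arbitrarily large amplitude

Let `𝕋²` be a torus with an arbitrary flat metric `A`.

(1) For EVERY potential `f ∈ C²(𝕋² × 𝕋)` almost every and the generic orbit of `½ ⟨A v, v⟩ + f(x, t)` is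
recurrent, in the future and in the past. So the orbits which tend to infinity form a null set and a
meagre set. (For Tonelli Lagrangians on `T𝕋² × 𝕋` this is false: library, `StableAccelerator`; for
a dense set of potentials there are orbits which tend to infinity: library, `DenseEscapeSurfaces`.)

(2) For every `f`: if the speed of some orbit goes from a value less than `r` at the time `a` to a
value larger than `r'` at the time `b` (later or earlier), then almost every and the generic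
orbit which starts in some neighbourhood `U` of its point at the time `a` has speeds less than
`r` and speeds larger than `r'` at arbitrarily late and at arbitrarily early times. In particular, if some
orbit tends to infinity, this holds for every `r'`, with `U` depending on `r'`.

(3) Let `g` be any increasing function. For all potentials in a residual subset of `C²(𝕋² × 𝕋)` and
all `R` there are `ρ` and a nonempty open set `U` of initial conditions with speeds between `R` and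
`ρ`, such that the speed of almost every and of the generic orbit starting in `U` is less than `ρ` and
larger than `g(ρ)` at arbitrarily late and at arbitrarily early times. (`GenericGrowth` of the
library has one orbit segment on which the speed grows once.)

The proof of (1). The change of the energy `H = ½ ⟨A v, v⟩ - f` in one period is `- ∫ ∂f/∂t` along
the orbit, which is small for all velocities off finitely many strips around resonant lines, by
averaging. The set `{H < N}` has measure `~ N` in dimension two; so the integral of the change over it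
is `o(N)`, and by Fubini's theorem there are arbitrarily high levels `C` such that the
measure of the set `{H ≥ C}` from which the level `C` is crossed downwards in one period, the flux,
is arbitrarily small. The volume is invariant and all sets `{H < C}` have finite measure; therefore a
wandering set of positive measure is impossible (it would have to cross these levels, forwards or
backwards, with its whole measure), and the Poincaré recurrence theorem holds although the measure is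
infinite. Finally the set of the recurrent points is a `G_δ` set.

Leaves of the proof were written by helpers 157, 187, 245, 249, 394, 485, 553, 646, 664, 707, 746, 755,
803, 808, 932 and 933. Author: helper244.
-/

namespace Pool.Agent.Results.MP_6acca1_an.RecurrenceAndOscillation

open Set Filter Topology MeasureTheory

/-- `f` is `ℤⁿ × ℤ`-periodic: a function on `𝕋ⁿ × 𝕋`. -/
def Periodic {n : ℕ} (f : (Fin n → ℝ) × ℝ → ℝ) : Prop :=
  ∀ (p : (Fin n → ℝ) × ℝ) (k : Fin n → ℤ) (l : ℤ), f (p.1 + (fun i => (k i : ℝ)), p.2 + l) = f p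

/-- The Lagrangian `½ ⟨A v, v⟩ + f(x, t)`. -/
noncomputable def lagrangian {n : ℕ} (A : Matrix (Fin n) (Fin n) ℝ) (f : (Fin n → ℝ) × ℝ → ℝ)
    (x v : Fin n → ℝ) (t : ℝ) : ℝ := 1 / 2 * (∑ i, ∑ j, A i j * v i * v j) + f (x, t)

/-- The partial derivative `∂L/∂v_i`. -/
noncomputable def dv {n : ℕ} (L : (Fin n → ℝ) → (Fin n → ℝ) → ℝ → ℝ) (i : Fin n)
    (x v : Fin n → ℝ) (t : ℝ) : ℝ := deriv (fun s => L x (Function.update v i s) t) (v i)

/-- The partial derivative `∂L/∂x_i`. -/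
noncomputable def dx {n : ℕ} (L : (Fin n → ℝ) → (Fin n → ℝ) → ℝ → ℝ) (i : Fin n)
    (x v : Fin n → ℝ) (t : ℝ) : ℝ := deriv (fun s => L (Function.update x i s) v t) (x i)

/-- `γ : ℝ → ℝⁿ` is a solution, defined for all times, of the Euler-Lagrange equations
`d/dt ∂L/∂v_i (γ, γ', t) = ∂L/∂x_i (γ, γ', t)`. -/
def IsOrbit {n : ℕ} (L : (Fin n → ℝ) → (Fin n → ℝ) → ℝ → ℝ) (γ : ℝ → (Fin n → ℝ)) : Prop :=
  (∀ t, DifferentiableAt ℝ γ t) ∧
  ∀ (t : ℝ) (i : Fin n), HasDerivAt (fun s => dv L i (γ s) (deriv γ s) s)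
    (dx L i (γ t) (deriv γ t) t) t

/-- The potentials of class `C²` on `𝕋ⁿ × 𝕋`. -/
def Pot (n : ℕ) : Set ((Fin n → ℝ) × ℝ → ℝ) := {f | ContDiff ℝ 2 f ∧ Periodic f}

/-- All derivatives of `h - f` of order at most two are at most `ε`: the distance of `C²(𝕋ⁿ × 𝕋)`. -/
def Close {n : ℕ} (ε : ℝ) (h f : (Fin n → ℝ) × ℝ → ℝ) : Prop :=
  ∀ (j : ℕ) (p : (Fin n → ℝ) × ℝ), j ≤ 2 → ‖iteratedFDeriv ℝ j (fun q => h q - f q) p‖ ≤ ε

/-- `U` is an open subset of `C²(𝕋ⁿ × 𝕋)`. -/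
def IsOpenC2 {n : ℕ} (U : Set ((Fin n → ℝ) × ℝ → ℝ)) : Prop :=
  U ⊆ Pot n ∧ ∀ f ∈ U, ∃ ε : ℝ, 0 < ε ∧ ∀ h ∈ Pot n, Close ε h f → h ∈ U

/-- `U` is a dense subset of `C²(𝕋ⁿ × 𝕋)`. -/
def IsDenseC2 {n : ℕ} (U : Set ((Fin n → ℝ) × ℝ → ℝ)) : Prop :=
  ∀ f ∈ Pot n, ∀ ε : ℝ, 0 < ε → ∃ h ∈ U, Close ε h f

/-- `O` contains the intersection of a sequence of open dense subsets of `C²(𝕋ⁿ × 𝕋)`. -/
def IsResidualC2 {n : ℕ} (O : Set ((Fin n → ℝ) × ℝ → ℝ)) : Prop :=
  ∃ U : ℕ → Set ((Fin n → ℝ) × ℝ → ℝ), (∀ k, IsOpenC2 (U k) ∧ IsDenseC2 (U k)) ∧ ⋂ k, U k ⊆ O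

/-- The points `(x, v, t)` of the phase space `T𝕋² × 𝕋`, lifted to `ℝ² × ℝ² × ℝ`. -/
abbrev Phase := (Fin 2 → ℝ) × (Fin 2 → ℝ) × ℝ

/-- `P` holds for almost all points of the phase space (Lebesgue measure) and for the generic
point. -/
def Typical (P : Phase → Prop) : Prop := (∀ᵐ z : Phase, P z) ∧ ∀ᶠ z in residual Phase, P z

/-- `γ` is an orbit of `½ ⟨A v, v⟩ + f(x, t)` through the point `z = (x, v, t)`. -/
def Through (A : Matrix (Fin 2) (Fin 2) ℝ) (f : (Fin 2 → ℝ) × ℝ → ℝ) (z : Phase)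
    (γ : ℝ → (Fin 2 → ℝ)) : Prop :=
  IsOrbit (lagrangian A f) γ ∧ γ z.2.2 = z.1 ∧ deriv γ z.2.2 = z.2.1

/-- The orbit in `T𝕋² × 𝕋` returns arbitrarily close to its point at the time `t`, at arbitrarily late
times `t + n` and at arbitrarily early times `t - n`. -/
def Recurrent (γ : ℝ → (Fin 2 → ℝ)) (t : ℝ) : Prop := ∀ ε : ℝ, 0 < ε → ∀ N : ℕ,
  (∃ n : ℕ, N ≤ n ∧ ∃ k : Fin 2 → ℤ, ‖γ (t + n) - (fun i => (k i : ℝ)) - γ t‖ < ε ∧
    ‖deriv γ (t + n) - deriv γ t‖ < ε) ∧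
  (∃ n : ℕ, N ≤ n ∧ ∃ k : Fin 2 → ℤ, ‖γ (t - n) - (fun i => (k i : ℝ)) - γ t‖ < ε ∧
    ‖deriv γ (t - n) - deriv γ t‖ < ε)

/-- At arbitrarily late and at arbitrarily early times the speed is less than `r`, and at arbitrarily
late and at arbitrarily early times it is larger than `r'`. -/
def Oscillates (γ : ℝ → (Fin 2 → ℝ)) (r r' : ℝ) : Prop := ∀ T : ℝ,
  (∃ t > T, ‖deriv γ t‖ < r) ∧ (∃ t > T, r' < ‖deriv γ t‖) ∧
  (∃ t < T, ‖deriv γ t‖ < r) ∧ ∃ t < T, r' < ‖deriv γ t‖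

theorem result (A : Matrix (Fin 2) (Fin 2) ℝ) (hA : A.PosDef) :
    (∀ f ∈ Pot 2,
      (∀ z, ∃! γ, Through A f z γ) ∧
      Typical (fun z => ∀ γ, Through A f z γ → Recurrent γ z.2.2 ∧
        ¬ Tendsto (fun t => ‖deriv γ t‖) atTop atTop ∧
        ¬ Tendsto (fun t => ‖deriv γ t‖) atBot atTop) ∧
      ∀ (γ₀ : ℝ → (Fin 2 → ℝ)) (a b r r' : ℝ), IsOrbit (lagrangian A f) γ₀ →
        ‖deriv γ₀ a‖ < r → r' < ‖deriv γ₀ b‖ →
        ∃ U : Set Phase, IsOpen U ∧ (γ₀ a, deriv γ₀ a, a) ∈ U ∧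
          Typical (fun z => z ∈ U → ∀ γ, Through A f z γ → Oscillates γ r r')) ∧
    ∀ g : ℝ → ℝ, Monotone g → IsResidualC2 {f : (Fin 2 → ℝ) × ℝ → ℝ | ∀ R : ℝ,
      ∃ (U : Set Phase) (ρ : ℝ), IsOpen U ∧ U.Nonempty ∧ (∀ z ∈ U, R ≤ ‖z.2.1‖ ∧ ‖z.2.1‖ ≤ ρ) ∧
        Typical (fun z => z ∈ U → ∀ γ, Through A f z γ → Oscillates γ ρ (g ρ))} := by
  have hrec : ∀ f ∈ Pot 2, Typical (fun z => ∀ γ, Through A f z γ → Recurrent γ z.2.2) := by
    intro f hf
    exact (Pool.Agent.H244.RC.typ_rec A f hA hf.1 hf.2).mono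
      fun z hz γ hγ => hz γ hγ.1 hγ.2.1 hγ.2.2
  have hosc : ∀ f ∈ Pot 2, ∀ (γ₀ : ℝ → (Fin 2 → ℝ)) (a b r r' : ℝ), IsOrbit (lagrangian A f) γ₀ →
      ‖deriv γ₀ a‖ < r → r' < ‖deriv γ₀ b‖ →
      ∃ U : Set Phase, IsOpen U ∧ (γ₀ a, deriv γ₀ a, a) ∈ U ∧
        Typical (fun z => z ∈ U → ∀ γ, Through A f z γ → Oscillates γ r r') := by
    intro f hf γ₀ a b r r' h0 h1 h2
    obtain ⟨U, hU, hz, hall⟩ := Pool.Agent.H244.RC.osc_of A f hA hf.1 hf.2 γ₀ h0 a b r r' h1 h2
    refine ⟨U, hU, hz, (hrec f hf).1.mono ?_, (hrec f hf).2.mono ?_⟩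
    · exact fun z hr hzU γ hγ => hall z hzU γ hγ.1 hγ.2.1 hγ.2.2 (hr γ hγ)
    · exact fun z hr hzU γ hγ => hall z hzU γ hγ.1 hγ.2.1 hγ.2.2 (hr γ hγ)
  refine ⟨fun f hf => ⟨fun z => ?_, ?_, hosc f hf⟩, fun g hg => ?_⟩
  · obtain ⟨X, K, gg, hgg⟩ := Pool.Agent.H244.RC.p_FLOW A f hA hf.1 hf.2
    exact (Pool.Agent.H244.RC.p_ORB A f X K gg hgg).2 z.2.2 z.1 z.2.1
  · refine ⟨(hrec f hf).1.mono fun z hz γ hγ => ⟨hz γ hγ, ?_⟩,
      (hrec f hf).2.mono fun z hz γ hγ => ⟨hz γ hγ, ?_⟩⟩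
    · exact Pool.Agent.H244.RC.not_escape (hz γ hγ)
    · exact Pool.Agent.H244.RC.not_escape (hz γ hγ)
  · obtain ⟨U, hU, hUO⟩ := GenericGrowth.result 2 le_rfl A hA (fun r => g (r + 1) + 1)
      (fun x y hxy => by
        have := hg (add_le_add_left hxy 1)
        simpa using this)
    refine ⟨U, hU, fun f hf R => ?_⟩
    have hfP : f ∈ Pot 2 := (hU 0).1.1 (mem_iInter.1 hf 0)
    obtain ⟨γ₀, h0, a, b, hab, hR, hb, -⟩ := hUO hf (R + 1)
    have hRa := hR a (left_mem_Icc.2 hab.le)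
    have hb' : g (‖deriv γ₀ a‖ + 1) + 1 ≤ ‖deriv γ₀ b‖ := hb
    obtain ⟨V, hV, hzV, htyp⟩ := hosc f hfP γ₀ a b (‖deriv γ₀ a‖ + 1) (g (‖deriv γ₀ a‖ + 1)) h0
      (by linarith) (by linarith)
    refine ⟨V ∩ ({z : Phase | R < ‖z.2.1‖} ∩ {z : Phase | ‖z.2.1‖ < ‖deriv γ₀ a‖ + 1}),
      ‖deriv γ₀ a‖ + 1, ?_, ⟨_, hzV, ?_, ?_⟩, fun z hz => ⟨le_of_lt hz.2.1, le_of_lt hz.2.2⟩, ?_⟩
    · exact hV.inter ((isOpen_lt continuous_const (by fun_prop)).inter
        (isOpen_lt (by fun_prop) continuous_const))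
    · show R < ‖deriv γ₀ a‖
      linarith
    · show ‖deriv γ₀ a‖ < ‖deriv γ₀ a‖ + 1
      linarith
    · exact ⟨htyp.1.mono fun z hz hzU => hz hzU.1, htyp.2.mono fun z hz hzU => hz hzU.1⟩

end Pool.Agent.Results.MP_6acca1_an.RecurrenceAndOscillation
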